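import Pool.Agent.L7h96.GC.Fnc
import Pool.Agent.L7h71.GD.Stm

/-! Project GD, part FNM: codes are fine. -/

set_option autoImplicit false

namespace Pool.Agent.L7h96.GD

open Set Function MeasureTheory FirstOrder FirstOrder.Language
open Pool.Agent.L7h66.UA (XS)
open Pool.Agent.L7h71.GB (FamG Gd Pr)
open Pool.Agent.L7h71.GC
open Pool.Agent.L7h71.GD
open Pool.Agent.L7h96.GC (block_top)

variable {L : FirstOrder.Language.{0, 0}}

/-- the block of a top point is finite -/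
theorem block_fin (S : L.Structure ℕ)
    (hn : ∀ x, ∃ y, G1 S y x ∧ TopP S y ∧ {z | G1 S y z ∧ G1 S z y}.Finite) {x : ℕ}
    (hx : TopP S x) : {w | G1 S x w ∧ G1 S w x}.Finite := by
  obtain ⟨y, h1, h2, h3⟩ := hn x
  have h4 : G1 S x y := hx y h1
  refine h3.subset ?_
  rintro w ⟨hw1, hw2⟩
  exact ⟨Pool.Agent.L7h96.GC.G1_trans S h1 hw1, Pool.Agent.L7h96.GC.G1_trans S hw2 h4⟩

/-- **FNM** -/
theorem s_FNM (h : S_GDC) : S_FNM := by
  classical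
  intro L hc E hE S ρ hD hP
  have hG := (h L hc E hE).2 S ρ
  -- the blocks
  have hblk : ∀ x, ∃ b : Finset ℕ, (∀ i, i ∈ b ↔ G1 S (ρ x) (ρ i) ∧ G1 S (ρ i) (ρ x)) ∧
      Gd (GG E) (cod E S ρ) b := by
    intro x
    have hx : TopP S (ρ x) := (hP.2 (ρ x)).2 ⟨x, rfl⟩
    have hfin := block_fin S hD.top hx
    have hpre : (ρ ⁻¹' {w | G1 S (ρ x) w ∧ G1 S w (ρ x)}).Finite :=
      hfin.preimage hP.1.injOn
    refine ⟨hpre.toFinset, fun i => by rw [Finite.mem_toFinset]; rfl, ?_⟩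
    rw [hG]
    intro y hy w hw hw'
    rw [Finite.mem_toFinset] at hy
    have h1 : G1 S (ρ x) w := Pool.Agent.L7h96.GC.G1_trans S hy.1 hw
    have h2 : G1 S w (ρ x) := Pool.Agent.L7h96.GC.G1_trans S hw' hy.2
    obtain ⟨i, hi⟩ := (hP.2 w).1 (block_top S hx h2)
    refine ⟨i, ?_, hi⟩
    rw [Finite.mem_toFinset]
    show G1 S (ρ x) (ρ i) ∧ G1 S (ρ i) (ρ x)
    rw [hi]
    exact ⟨h1, h2⟩
  refine ⟨?_, ?_, ?_⟩
  · intro b c hb hc'
    rw [hG] at hb hc' ⊢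
    intro y hy w hw hw'
    rcases Finset.mem_union.1 hy with hy | hy
    · obtain ⟨z, hz, hzw⟩ := hb y hy w hw hw'
      exact ⟨z, Finset.mem_union_left _ hz, hzw⟩
    · obtain ⟨z, hz, hzw⟩ := hc' y hy w hw hw'
      exact ⟨z, Finset.mem_union_right _ hz, hzw⟩
  · intro b c hb hc' _
    rw [hG] at hb hc' ⊢
    intro y hy w hw hw'
    obtain ⟨hyb, hyc⟩ := Finset.mem_inter.1 hy
    obtain ⟨z, hz, hzw⟩ := hb y hyb w hw hw'
    obtain ⟨z', hz', hzw'⟩ := hc' y hyc w hw hw'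
    have hzz : z = z' := hP.1 (hzw.trans hzw'.symm)
    subst hzz
    exact ⟨z, Finset.mem_inter.2 ⟨hz, hz'⟩, hzw⟩
  · intro x
    obtain ⟨b, hb, hbg⟩ := hblk x
    have hxb : x ∈ b := (hb x).2 ⟨Pool.Agent.L7h96.GC.G1_refl S _, Pool.Agent.L7h96.GC.G1_refl S _⟩
    refine ⟨b, hxb, ⟨x, hbg, hxb, ?_⟩, ?_⟩
    · intro c hcg hxc i hi
      obtain ⟨h1, h2⟩ := (hb i).1 hi
      rw [hG] at hcg
      obtain ⟨z, hz, hzw⟩ := hcg x hxc (ρ i) h1 h2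
      have : z = i := hP.1 hzw
      exact this ▸ hz
    · intro c z hcz hbc i hi
      obtain ⟨b', hb', hbg'⟩ := hblk z
      have hzb' : z ∈ b' :=
        (hb' z).2 ⟨Pool.Agent.L7h96.GC.G1_refl S _, Pool.Agent.L7h96.GC.G1_refl S _⟩
      have hcb' := hcz.2.2 b' hbg' hzb'
      obtain ⟨h1, h2⟩ := (hb' x).1 (hcb' (hbc hxb))
      obtain ⟨h3, h4⟩ := (hb' i).1 (hcb' hi)
      exact (hb i).2 ⟨Pool.Agent.L7h96.GC.G1_trans S h2 h3, Pool.Agent.L7h96.GC.G1_trans S h4 h1⟩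

end Pool.Agent.L7h96.GD
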